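import Pool.Agent.Y214.HB.Stm

/-!
# Project HB: tests for all the factors, diagonal argument
-/

set_option autoImplicit false

namespace Pool.Agent.Y214.HB

open Polynomial Filter Topology

/-- the tests for finitely many polynomials -/
theorem tests_all (hDEN : S_DEN) {n d : ℕ} (hn : 1 ≤ n) (hd : 1 ≤ d)
    (hfin : ∀ H, (Fm n d H).Finite) :
    ∀ (k : ℕ) (Q : Fin k → (MvPolynomial (Fin (n + 1)) ℤ)[X]), (∀ i, Base (Q i)) →
    ∀ (m : ℕ) (ε : ℝ), 0 < ε → ∃ M H₀ : ℕ, m ≤ M ∧ ∀ H : ℕ, H₀ ≤ H →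
      (({f | f ∈ Fm n d H ∧ ¬ ∃ (l : Fin k → ℕ) (a : Fin k → Fin (n + 1) → ℤ),
        Function.Injective l ∧ ∀ i, (l i).Prime ∧ m < l i ∧ l i ≤ M ∧ Obs (Q i) (l i) (a i) ∧
          Test f (l i) (a i)} : Set _).ncard : ℝ) ≤ ε * ((Fm n d H).ncard : ℝ) := by
  intro k
  induction k with
  | zero =>
    intro Q _ m ε hε
    refine ⟨m, 0, le_rfl, fun H _ => ?_⟩
    have h0 : ({f | f ∈ Fm n d H ∧ ¬ ∃ (l : Fin 0 → ℕ) (a : Fin 0 → Fin (n + 1) → ℤ),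
        Function.Injective l ∧ ∀ i, (l i).Prime ∧ m < l i ∧ l i ≤ m ∧ Obs (Q i) (l i) (a i) ∧
          Test f (l i) (a i)} : Set _) = ∅ := by
      rw [Set.eq_empty_iff_forall_notMem]
      rintro f ⟨-, hf⟩
      exact hf ⟨Fin.elim0, Fin.elim0, fun i => i.elim0, fun i => i.elim0⟩
    rw [h0, Set.ncard_empty, Nat.cast_zero]
    positivity
  | succ k ih =>
    intro Q hQ m ε hε
    have hex : ∀ p : ℕ, ∃ a : Fin (n + 1) → ℤ, p ∈ {p : ℕ | p.Prime ∧ ∃ a : Fin (n + 1) → ℤ,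
        (∃ i, ¬ (p : ℤ) ∣ a i) ∧ Obs (Q 0) p a} →
        (∃ i, ¬ (p : ℤ) ∣ a i) ∧ Obs (Q 0) p a := by
      intro p
      by_cases hp : p ∈ {p : ℕ | p.Prime ∧ ∃ a : Fin (n + 1) → ℤ,
        (∃ i, ¬ (p : ℤ) ∣ a i) ∧ Obs (Q 0) p a}
      · obtain ⟨h1, a, ha⟩ := hp
        exact ⟨a, fun _ => ha⟩
      · exact ⟨0, fun h => absurd h hp⟩
    choose a ha using hex
    obtain ⟨M₁, H₁, hM₁, hH₁⟩ := hDEN n d hn hd _ (fun p hp => hp.1) (hQ 0) a
      (fun p hp => (ha p hp).1) (ε / 2) (half_pos hε) m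
    obtain ⟨M₂, H₂, hM₂, hH₂⟩ := ih (fun i => Q i.succ) (fun i => hQ i.succ) M₁ (ε / 2)
      (half_pos hε)
    refine ⟨M₂, max H₁ H₂, hM₁.trans hM₂, fun H hH => ?_⟩
    have h1 := hH₁ H ((le_max_left _ _).trans hH)
    have h2 := hH₂ H ((le_max_right _ _).trans hH)
    have hsub : {f | f ∈ Fm n d H ∧ ¬ ∃ (l : Fin (k + 1) → ℕ)
        (a : Fin (k + 1) → Fin (n + 1) → ℤ),
        Function.Injective l ∧ ∀ i, (l i).Prime ∧ m < l i ∧ l i ≤ M₂ ∧ Obs (Q i) (l i) (a i) ∧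
          Test f (l i) (a i)} ⊆
        {f | f ∈ Fm n d H ∧ ∀ p ∈ {p : ℕ | p.Prime ∧ ∃ a : Fin (n + 1) → ℤ,
          (∃ i, ¬ (p : ℤ) ∣ a i) ∧ Obs (Q 0) p a}, m < p → p ≤ M₁ → ¬ Test f p (a p)} ∪
        {f | f ∈ Fm n d H ∧ ¬ ∃ (l : Fin k → ℕ) (a : Fin k → Fin (n + 1) → ℤ),
        Function.Injective l ∧ ∀ i, (l i).Prime ∧ M₁ < l i ∧ l i ≤ M₂ ∧
          Obs (Q i.succ) (l i) (a i) ∧ Test f (l i) (a i)} := by
      rintro f ⟨hf, hno⟩
      by_contra hcon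
      rw [Set.mem_union, not_or] at hcon
      obtain ⟨hc1, hc2⟩ := hcon
      have h3 : ∃ p ∈ {p : ℕ | p.Prime ∧ ∃ a : Fin (n + 1) → ℤ,
          (∃ i, ¬ (p : ℤ) ∣ a i) ∧ Obs (Q 0) p a}, m < p ∧ p ≤ M₁ ∧ Test f p (a p) := by
        by_contra h
        push Not at h
        exact hc1 ⟨hf, fun p hp h1 h2 => h p hp h1 h2⟩
      have h4 : ∃ (l : Fin k → ℕ) (a : Fin k → Fin (n + 1) → ℤ),
        Function.Injective l ∧ ∀ i, (l i).Prime ∧ M₁ < l i ∧ l i ≤ M₂ ∧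
          Obs (Q i.succ) (l i) (a i) ∧ Test f (l i) (a i) := by
        by_contra h
        exact hc2 ⟨hf, h⟩
      obtain ⟨p, hp, hp1, hp2, hp3⟩ := h3
      obtain ⟨l, b, hl, hb⟩ := h4
      apply hno
      refine ⟨Fin.cons p l, Fin.cons (a p) b, ?_, ?_⟩
      · rw [Fin.cons_injective_iff]
        refine ⟨?_, hl⟩
        rintro ⟨i, hi⟩
        have := (hb i).2.1
        omega
      · intro i
        refine Fin.cases ?_ (fun i => ?_) i
        · simp only [Fin.cons_zero]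
          exact ⟨hp.1, hp1, hp2.trans hM₂, (ha p hp).2, hp3⟩
        · simp only [Fin.cons_succ]
          exact ⟨(hb i).1, lt_of_le_of_lt hM₁ (hb i).2.1, (hb i).2.2.1, (hb i).2.2.2.1,
            (hb i).2.2.2.2⟩
    have h5 := Set.ncard_le_ncard hsub
      (((hfin H).subset (fun f hf => hf.1)).union ((hfin H).subset (fun f hf => hf.1)))
    have h6 := (h5.trans (Set.ncard_union_le _ _))
    have h7 := (Nat.cast_le (α := ℝ)).mpr h6
    rw [Nat.cast_add] at h7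
    linarith

theorem Tested.mono {n m M M' : ℕ} {f : MvPolynomial (Fin (n + 1)) ℤ}
    {P : (MvPolynomial (Fin (n + 1)) ℤ)[X]} (hM : M ≤ M') (h : Tested m M f P) :
    Tested m M' f P := by
  obtain ⟨k, Q, c, l, a, h1, h2, h3⟩ := h
  exact ⟨k, Q, c, l, a, h1, h2, fun i => ⟨(h3 i).1, (h3 i).2.1, (h3 i).2.2.1.trans hM,
    (h3 i).2.2.2⟩⟩

theorem tested_all (hDEN : S_DEN) (hFAC : S_FAC) (hBASE : S_BASE) {n d : ℕ} (hn : 1 ≤ n)
    (hd : 1 ≤ d) (hfin : ∀ H, (Fm n d H).Finite) (P : (MvPolynomial (Fin (n + 1)) ℤ)[X])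
    (hP : NoRoot P) (m : ℕ) (ε : ℝ) (hε : 0 < ε) :
    ∃ M H₀ : ℕ, m ≤ M ∧ 2 ≤ M ∧ ∀ H : ℕ, H₀ ≤ H →
      (({f | f ∈ Fm n d H ∧ ¬ Tested m M f P} : Set _).ncard : ℝ) ≤
        ε * ((Fm n d H).ncard : ℝ) := by
  obtain ⟨k, Q, c, hprod, hK⟩ := hFAC n P hP
  obtain ⟨M, H₀, hM, hH⟩ := tests_all hDEN hn hd hfin k Q (fun i => hBASE n (Q i) (hK i)) m ε hε
  refine ⟨max M 2, H₀, hM.trans (le_max_left _ _), le_max_right _ _, fun H hH0 => ?_⟩
  refine le_trans ?_ (hH H hH0)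
  have hsub : {f | f ∈ Fm n d H ∧ ¬ Tested m (max M 2) f P} ⊆
      {f | f ∈ Fm n d H ∧ ¬ ∃ (l : Fin k → ℕ) (a : Fin k → Fin (n + 1) → ℤ),
        Function.Injective l ∧ ∀ i, (l i).Prime ∧ m < l i ∧ l i ≤ M ∧ Obs (Q i) (l i) (a i) ∧
          Test f (l i) (a i)} := by
    rintro f ⟨hf, hno⟩
    refine ⟨hf, ?_⟩
    rintro ⟨l, a, hl, h⟩
    exact hno (Tested.mono (le_max_left _ _) ⟨k, Q, c, l, a, hprod, hl, h⟩)
  exact_mod_cast Set.ncard_le_ncard hsub ((hfin H).subset (fun f hf => hf.1))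

/-- the product of all the covers of complexity at most `m` -/
noncomputable def Ptot (hFIN : S_FIN) (n m : ℕ) : (MvPolynomial (Fin (n + 1)) ℤ)[X] :=
  ∏ P ∈ (hFIN n m).toFinset, P

theorem noRoot_one {n : ℕ} : NoRoot (1 : (MvPolynomial (Fin (n + 1)) ℤ)[X]) := by
  intro r
  unfold toK
  rw [Polynomial.map_one, eval_one]
  exact one_ne_zero

theorem noRoot_mul {n : ℕ} {P Q : (MvPolynomial (Fin (n + 1)) ℤ)[X]} (hP : NoRoot P)
    (hQ : NoRoot Q) : NoRoot (P * Q) := by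
  intro r
  unfold toK
  rw [Polynomial.map_mul, eval_mul]
  exact mul_ne_zero (hP r) (hQ r)

theorem ptot_noRoot (hFIN : S_FIN) (n m : ℕ) : NoRoot (Ptot hFIN n m) := by
  unfold Ptot
  refine Finset.prod_induction _ NoRoot (fun _ _ => noRoot_mul) noRoot_one (fun P hP => ?_)
  rw [Set.Finite.mem_toFinset] at hP
  exact hP.2.2.2

theorem ptot_eval (hFIN : S_FIN) {n m : ℕ} {x : Fin (n + 1) → ℚ} {w : ℚ}
    (h : ((Ptot hFIN n m).map (evQ x)).eval w ≠ 0) {P : (MvPolynomial (Fin (n + 1)) ℤ)[X]}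
    (hP : P ∈ Cov n m) : (P.map (evQ x)).eval w ≠ 0 := by
  intro h0
  apply h
  unfold Ptot
  rw [Polynomial.map_prod, Polynomial.eval_prod]
  exact Finset.prod_eq_zero ((hFIN n m).mem_toFinset.mpr hP) h0

/-- a diagonal argument -/
theorem diag_abs {T b : ℕ → ℝ} {a bad : ℕ → ℕ → ℝ} (hT : ∀ H, 0 < T H) {c : ℝ} (hc : 0 < c)
    (hb : ∃ H₁ : ℕ, ∀ H : ℕ, H₁ ≤ H → c * T H ≤ b H) (hab : ∀ m H, a m H ≤ b H)
    (hba : ∀ m H, b H ≤ a m H + bad m H)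
    (hbad : ∀ m : ℕ, 1 ≤ m → ∀ ε : ℝ, 0 < ε → ∃ H₀ : ℕ, ∀ H : ℕ, H₀ ≤ H →
      bad m H ≤ ε * T H) :
    ∃ M : ℕ → ℕ, Tendsto M atTop atTop ∧
      Tendsto (fun H => a (M H) H / b H) atTop (𝓝 1) := by
  obtain ⟨H₁, hH₁⟩ := hb
  have h1 := fun m : ℕ => hbad (m + 1) (by omega) (c / (m + 1)) (by positivity)
  choose Hf hHf using h1
  obtain ⟨M, hM⟩ : ∃ M : ℕ → ℕ, M = fun H : ℕ => Nat.findGreatest
      (fun j => ∀ i, i < j → Hf i ≤ H) H := ⟨_, rfl⟩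
  have hMtop : Tendsto M atTop atTop := by
    rw [tendsto_atTop]
    intro b
    obtain ⟨B, hB⟩ := Finset.exists_le ((Finset.range b).image Hf)
    filter_upwards [eventually_ge_atTop b, eventually_ge_atTop B] with H hH1 hH2
    rw [hM]
    apply Nat.le_findGreatest hH1
    intro i hi
    exact (hB _ (Finset.mem_image_of_mem Hf (Finset.mem_range.mpr hi))).trans hH2
  have hMspec : ∀ H : ℕ, 1 ≤ M H → Hf (M H - 1) ≤ H := by
    intro H hH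
    have h2 : ∀ i, i < M H → Hf i ≤ H := by
      have := Nat.findGreatest_spec (P := fun j => ∀ i, i < j → Hf i ≤ H) (m := 0) (n := H)
        (Nat.zero_le _) (fun i hi => absurd hi (Nat.not_lt_zero i))
      rw [hM]
      exact this
    exact h2 _ (by omega)
  refine ⟨M, hMtop, ?_⟩
  rw [Metric.tendsto_atTop]
  intro δ hδ
  obtain ⟨j, hj⟩ := exists_nat_gt (1 / δ)
  have h3 := (tendsto_atTop.mp hMtop (j + 1)).and (eventually_ge_atTop H₁)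
  obtain ⟨H₂, hH₂⟩ := eventually_atTop.mp h3
  refine ⟨H₂, fun H hH => ?_⟩
  obtain ⟨h4, h5⟩ := hH₂ H hH
  have hcb := hH₁ H h5
  have h7 := hHf (M H - 1) H (hMspec H (by omega))
  have h8 : M H - 1 + 1 = M H := by omega
  rw [h8] at h7
  have h9 : (((M H - 1 : ℕ) : ℝ) + 1) = (M H : ℝ) := by exact_mod_cast h8
  rw [h9] at h7
  have hM0 : (0:ℝ) < M H := by
    have : 0 < M H := by omega
    exact_mod_cast this
  have hT0 := hT H
  have hb0 : 0 < b H := lt_of_lt_of_le (by positivity) hcb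
  have hab' := hab (M H) H
  have hba' := hba (M H) H
  rw [Real.dist_eq]
  have h13 : a (M H) H / b H - 1 = -((b H - a (M H) H) / b H) := by field_simp; ring
  rw [h13, abs_neg, abs_of_nonneg (div_nonneg (by linarith) hb0.le), div_lt_iff₀ hb0]
  have h14 : c / (M H) * T H ≤ 1 / (M H) * b H := by
    have := mul_le_mul_of_nonneg_left hcb (by positivity : 0 ≤ 1 / (M H : ℝ))
    refine le_trans (le_of_eq ?_) this
    ring
  have h15 : 1 / (M H : ℝ) < δ := by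
    rw [div_lt_iff₀ hM0]
    rw [div_lt_iff₀ hδ] at hj
    have h16 : (j : ℝ) + 1 ≤ M H := by exact_mod_cast h4
    have h17 := mul_le_mul_of_nonneg_left h16 hδ.le
    linarith
  have h18 := mul_lt_mul_of_pos_right h15 hb0
  linarith

end Pool.Agent.Y214.HB
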