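import Pool.Agent.Y214.HB.Asm1
import Pool.Agent.Y716.C.Smooth

/-!
# Project HB: the theorem from the parts
-/

set_option autoImplicit false

namespace Pool.Agent.Y214.HB

open Polynomial Filter Topology
open Pool.Agent.Y716.Q Pool.Agent.Y716.C

/-- points over the real numbers and over all the `p`-adic fields -/
def Els {n : ℕ} (f : MvPolynomial (Fin (n + 1)) ℤ) : Prop :=
  (∃ x : Fin (n + 1) → ℝ, x ≠ 0 ∧ MvPolynomial.aeval x f = 0) ∧
    ∀ (p : ℕ) [Fact p.Prime], ∃ x : Fin (n + 1) → ℚ_[p], x ≠ 0 ∧ MvPolynomial.aeval x f = 0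

theorem els_iff {n : ℕ} (f : MvPolynomial (Fin (n + 1)) ℤ) :
    ElsS (fun _ : Fin 1 => f) ↔ Els f := by
  unfold ElsS Els
  simp only [forall_const]

theorem wa_iff {n : ℕ} (m : ℕ) (f : MvPolynomial (Fin (n + 1)) ℤ) :
    WeakApproxS m (fun _ : Fin 1 => f) ↔ WA m f := by
  unfold WeakApproxS WA
  simp only [forall_const]

theorem one_eta {n : ℕ} (g : Fin 1 → MvPolynomial (Fin (n + 1)) ℤ) : (fun _ : Fin 1 => g 0) = g :=
  funext fun j => by rw [Subsingleton.elim j 0]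

theorem card_conv {n d : ℕ} (hd : 2 ≤ d) (H : ℕ) (P : MvPolynomial (Fin (n + 1)) ℤ → Prop)
    (Q : (Fin 1 → MvPolynomial (Fin (n + 1)) ℤ) → Prop) (h : ∀ f, Q (fun _ => f) ↔ P f) :
    ({f | f ∈ Fm n d H ∧ P f} : Set _).ncard =
    ({f : Fin 1 → MvPolynomial (Fin (n + 1)) ℤ |
      (∀ j, (f j).IsHomogeneous ((fun _ : Fin 1 => d - 2) j + 2) ∧
      ∀ m, |(f j).coeff m| ≤ (H : ℤ)) ∧ Q f} : Set _).ncard := by
  have hd2 : d - 2 + 2 = d := by omega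
  have h1 : ({f : Fin 1 → MvPolynomial (Fin (n + 1)) ℤ |
      (∀ j, (f j).IsHomogeneous ((fun _ : Fin 1 => d - 2) j + 2) ∧
      ∀ m, |(f j).coeff m| ≤ (H : ℤ)) ∧ Q f} : Set _) =
      (fun (f : MvPolynomial (Fin (n + 1)) ℤ) (_ : Fin 1) => f) '' {f | f ∈ Fm n d H ∧ P f} := by
    ext g
    constructor
    · intro hg
      refine ⟨g 0, ⟨⟨?_, (hg.1 0).2⟩, (h (g 0)).mp ?_⟩, one_eta g⟩
      · have := (hg.1 0).1
        simp only [hd2] at this
        exact this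
      · rw [one_eta]; exact hg.2
    · rintro ⟨f, hf, rfl⟩
      refine ⟨fun _ => ⟨?_, hf.1.2⟩, (h f).mpr hf.2⟩
      simp only [hd2]
      exact hf.1.1
  rw [h1, Set.ncard_image_of_injective]
  intro f g hfg
  exact congrFun hfg 0

theorem card_filt {n d : ℕ} (hd : 2 ≤ d) (H : ℕ) (P : MvPolynomial (Fin (n + 1)) ℤ → Prop)
    (Q : (Fin 1 → MvPolynomial (Fin (n + 1)) ℤ) → Prop) {_hq : DecidablePred Q}
    (h : ∀ f, Q (fun _ => f) ↔ P f) :
    ({f | f ∈ Fm n d H ∧ P f} : Set _).ncard =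
      ((sysZ (Fin (n + 1)) (fun _ : Fin 1 => d - 2) (H : ℝ)).filter Q).card := by
  rw [card_conv hd H P Q h, ← Pool.Agent.Y438.C.ncard_eq_filterS]
  congr 1
  ext f
  simp only [Set.mem_ofPred_eq, isF_iff]

theorem card_tot {n d : ℕ} (hd : 2 ≤ d) (H : ℕ) :
    (Fm n d H).ncard = (sysZ (Fin (n + 1)) (fun _ : Fin 1 => d - 2) (H : ℝ)).card := by
  classical
  have h1 := card_filt (_hq := fun _ => Classical.propDecidable _) hd H (fun _ : MvPolynomial (Fin (n + 1)) ℤ => True)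
    (fun _ : Fin 1 → MvPolynomial (Fin (n + 1)) ℤ => True) (fun _ => Iff.rfl)
  simp only [and_true, Finset.filter_true] at h1
  exact h1

theorem fm_finite (n d H : ℕ) : (Fm n d H).Finite := by
  refine (Finset.finite_toSet (formsZ (Fin (n + 1)) d (H : ℝ))).subset ?_
  intro f hf
  rw [Finset.mem_coe, mem_formsZ, isF_iff]
  exact hf

section
variable {n d : ℕ} (hn : 3 ≤ n) (h2 : 2 ≤ d) (hd : d ≤ n)
include hn h2 hd

theorem wa_bad (m : ℕ) (hm : 1 ≤ m) (ε : ℝ) (hε : 0 < ε) :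
    ∃ H₀ : ℕ, ∀ H : ℕ, H₀ ≤ H →
      (({f | f ∈ Fm n d H ∧ ¬ WA m f} : Set _).ncard : ℝ) ≤ ε * ((Fm n d H).ncard : ℝ) := by
  classical
  have hexc : ExcStmtS (Fin (n + 1)) (fun _ : Fin 1 => d - 2) :=
    exc_systems (Fin (n + 1)) le_rfl (by rw [Fintype.card_fin]; omega) (fun _ => d - 2)
      (by rw [Fintype.card_fin]; simp; omega)
  obtain ⟨H₀, hH₀⟩ := Pool.Agent.Y438.C.wa_excS (Fin (n + 1)) (fun _ : Fin 1 => d - 2) hexc hm hε
  refine ⟨⌈H₀⌉₊, fun H hH => ?_⟩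
  have h1 := hH₀ (H : ℝ) ((Nat.le_ceil _).trans (by exact_mod_cast hH))
  rw [card_filt (_hq := fun _ => Classical.propDecidable _) h2 H (fun f => ¬ WA m f) (fun g => ¬ WeakApproxS m g)
    (fun f => by rw [wa_iff]), card_tot h2]
  convert h1

theorem pos_els : ∃ c : ℝ, 0 < c ∧ ∃ H₁ : ℕ, ∀ H : ℕ, H₁ ≤ H →
    c * ((Fm n d H).ncard : ℝ) ≤ (({f | f ∈ Fm n d H ∧ Els f} : Set _).ncard : ℝ) := by
  classical
  obtain ⟨c, hc, H₁, hH₁⟩ := pos_systems (Fin (n + 1)) (s := 1) le_rfl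
    (by rw [Fintype.card_fin]; omega) (fun _ => d - 2) (by rw [Fintype.card_fin]; simp; omega)
  refine ⟨c, hc, ⌈H₁⌉₊, fun H hH => ?_⟩
  have h1 := hH₁ (H : ℝ) ((Nat.le_ceil _).trans (by exact_mod_cast hH))
  rw [card_filt (_hq := fun _ => Classical.propDecidable _) h2 H Els ElsS els_iff, card_tot h2]
  refine h1.trans ?_
  exact card_filter_le' _ _ _ (fun f _ hf => Pool.Agent.Y438.C.els_of_zero hf)

/-- Almost all forms have the property `WAP`. -/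
theorem wap_bad (hDEN : S_DEN) (hFAC : S_FAC) (hBASE : S_BASE) (hFIX : S_FIX)
    (P : (MvPolynomial (Fin (n + 1)) ℤ)[X]) (hP : NoRoot P) (m : ℕ) (hm : 1 ≤ m) (ε : ℝ)
    (hε : 0 < ε) : ∃ H₀ : ℕ, ∀ H : ℕ, H₀ ≤ H →
      (({f | f ∈ Fm n d H ∧ ¬ WAP m f P} : Set _).ncard : ℝ) ≤ ε * ((Fm n d H).ncard : ℝ) := by
  obtain ⟨M, H₁, hM, hM2, hH₁⟩ := tested_all hDEN hFAC hBASE (n := n) (d := d) (by omega)
    (by omega) (fun H => fm_finite n d H) P hP m (ε / 2) (half_pos hε)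
  obtain ⟨H₂, hH₂⟩ := wa_bad hn h2 hd M (by omega) (ε / 2) (half_pos hε)
  refine ⟨max H₁ H₂, fun H hH => ?_⟩
  have e1 := hH₁ H ((le_max_left _ _).trans hH)
  have e2 := hH₂ H ((le_max_right _ _).trans hH)
  have hsub : {f | f ∈ Fm n d H ∧ ¬ WAP m f P} ⊆
      {f | f ∈ Fm n d H ∧ ¬ Tested m M f P} ∪ {f | f ∈ Fm n d H ∧ ¬ WA M f} := by
    rintro f ⟨hf, hno⟩
    by_cases ht : Tested m M f P
    · right
      exact ⟨hf, fun hw => hno (hFIX n d m M f P h2 hm hM hM2 hf.1 hw ht)⟩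
    · left
      exact ⟨hf, ht⟩
  have h5 := (Set.ncard_le_ncard hsub (((fm_finite n d H).subset (fun f hf => hf.1)).union
    ((fm_finite n d H).subset (fun f hf => hf.1)))).trans (Set.ncard_union_le _ _)
  have h7 := (Nat.cast_le (α := ℝ)).mpr h5
  rw [Nat.cast_add] at h7
  linarith

/-- The theorem, from the parts. -/
theorem main_of (hDEN : S_DEN) (hFAC : S_FAC) (hBASE : S_BASE) (hFIX : S_FIX) (hFIN : S_FIN) :
    ∃ m : ℕ → ℕ, Tendsto m atTop atTop ∧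
      Tendsto (fun H : ℕ =>
        (({g : Fin 1 → MvPolynomial (Fin (n + 1)) ℤ |
          (∀ j, (g j).IsHomogeneous ((fun _ : Fin 1 => d - 2) j + 2) ∧
            ∀ m, |(g j).coeff m| ≤ (H : ℤ)) ∧ Pool.Agent.Y697.C13.SmoothS g ∧ ElsS g ∧
            WAP (m H) (g 0) (Ptot hFIN n (m H))} : Set _).ncard : ℝ) /
        (({g : Fin 1 → MvPolynomial (Fin (n + 1)) ℤ |
          (∀ j, (g j).IsHomogeneous ((fun _ : Fin 1 => d - 2) j + 2) ∧
            ∀ m, |(g j).coeff m| ≤ (H : ℤ)) ∧ Pool.Agent.Y697.C13.SmoothS g ∧ ElsS g} :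
            Set _).ncard : ℝ)) atTop (𝓝 1) := by
  classical
  obtain ⟨c, hc, hpos⟩ := pos_els hn h2 hd
  have hT : ∀ H : ℕ, (0 : ℝ) < ((Fm n d H).ncard : ℝ) := by
    intro H
    rw [card_tot h2]
    exact_mod_cast Pool.Agent.Y438.C.card_sysZ_pos (ι := Fin (n + 1)) (fun _ : Fin 1 => d - 2)
      (Nat.cast_nonneg H)
  obtain ⟨M, hM, hlim⟩ := diag_abs
    (T := fun H => ((Fm n d H).ncard : ℝ))
    (b := fun H => (({f | f ∈ Fm n d H ∧ Els f} : Set _).ncard : ℝ))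
    (a := fun m H => (({f | f ∈ Fm n d H ∧ Els f ∧ WAP m f (Ptot hFIN n m)} : Set _).ncard : ℝ))
    (bad := fun m H => (({f | f ∈ Fm n d H ∧ ¬ WAP m f (Ptot hFIN n m)} : Set _).ncard : ℝ))
    hT hc hpos
    (fun m H => by
      have : {f | f ∈ Fm n d H ∧ Els f ∧ WAP m f (Ptot hFIN n m)} ⊆ {f | f ∈ Fm n d H ∧ Els f} :=
        fun f hf => ⟨hf.1, hf.2.1⟩
      exact_mod_cast Set.ncard_le_ncard this ((fm_finite n d H).subset (fun f hf => hf.1)))
    (fun m H => by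
      have hsub : {f | f ∈ Fm n d H ∧ Els f} ⊆
          {f | f ∈ Fm n d H ∧ Els f ∧ WAP m f (Ptot hFIN n m)} ∪
          {f | f ∈ Fm n d H ∧ ¬ WAP m f (Ptot hFIN n m)} := by
        rintro f ⟨hf, he⟩
        by_cases hw : WAP m f (Ptot hFIN n m)
        · left; exact ⟨hf, he, hw⟩
        · right; exact ⟨hf, hw⟩
      have h5 := (Set.ncard_le_ncard hsub (((fm_finite n d H).subset (fun f hf => hf.1)).union
        ((fm_finite n d H).subset (fun f hf => hf.1)))).trans (Set.ncard_union_le _ _)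
      have h7 := (Nat.cast_le (α := ℝ)).mpr h5
      rw [Nat.cast_add] at h7
      exact h7)
    (fun m hm ε hε => wap_bad hn h2 hd hDEN hFAC hBASE hFIX _ (ptot_noRoot hFIN n m) m hm ε hε)
  refine ⟨M, hM, ?_⟩
  refine smooth_ratio (Fin (n + 1)) (fun _ : Fin 1 => d - 2)
    (pos_systems (Fin (n + 1)) (s := 1) le_rfl
      (by rw [Fintype.card_fin]; omega) (fun _ => d - 2) (by rw [Fintype.card_fin]; simp; omega))
    (fun H g => ElsS g ∧ WAP (M H) (g 0) (Ptot hFIN n (M H))) (fun H g _ h => h.1) ?_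
  refine hlim.congr (fun H => ?_)
  rw [card_conv h2 H (fun f => Els f ∧ WAP (M H) f (Ptot hFIN n (M H)))
    (fun g => ElsS g ∧ WAP (M H) (g 0) (Ptot hFIN n (M H))) (fun f => by rw [els_iff]),
    card_conv h2 H Els ElsS els_iff]

end

end Pool.Agent.Y214.HB
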