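import Mathlib

/-!
# Project HB: rational points of random Fano hypersurfaces outside thin sets

Statements of the parts.
-/

set_option autoImplicit false

namespace Pool.Agent.Y214.HB

open Polynomial Filter

/-- forms of degree `d` in `n + 1` variables with integral coefficients at most `H` -/
def Fm (n d H : ℕ) : Set (MvPolynomial (Fin (n + 1)) ℤ) :=
  {f | f.IsHomogeneous d ∧ ∀ u, |f.coeff u| ≤ (H : ℤ)}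

/-- `a` is a smooth zero of `f` modulo `p` -/
def Test {n : ℕ} (f : MvPolynomial (Fin (n + 1)) ℤ) (p : ℕ) (a : Fin (n + 1) → ℤ) : Prop :=
  (p : ℤ) ∣ MvPolynomial.eval a f ∧ ∃ j, ¬ (p : ℤ) ∣ MvPolynomial.eval a (MvPolynomial.pderiv j f)

/-- modulo `p` the polynomial `P(a, w)` keeps its degree and has no root -/
def Obs {n : ℕ} (P : (MvPolynomial (Fin (n + 1)) ℤ)[X]) (p : ℕ) (a : Fin (n + 1) → ℤ) : Prop :=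
  ¬ (p : ℤ) ∣ MvPolynomial.eval a P.leadingCoeff ∧
    ∀ w : ℤ, ¬ (p : ℤ) ∣ (P.map (MvPolynomial.eval a)).eval w

/-- the sum of the reciprocals of the elements of `L` diverges -/
def Dv (L : Set ℕ) : Prop :=
  ¬ Summable (fun k : ℕ => L.indicator (fun k : ℕ => (1 : ℝ) / k) k)

/-- evaluation at a rational vector -/
noncomputable def evQ {n : ℕ} (x : Fin (n + 1) → ℚ) : MvPolynomial (Fin (n + 1)) ℤ →+* ℚ :=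
  MvPolynomial.eval₂Hom (Int.castRingHom ℚ) x

/-- the passage to the field of fractions -/
noncomputable def toK {n : ℕ} (P : (MvPolynomial (Fin (n + 1)) ℤ)[X]) :
    (FractionRing (MvPolynomial (Fin (n + 1)) ℤ))[X] :=
  P.map (algebraMap (MvPolynomial (Fin (n + 1)) ℤ) (FractionRing (MvPolynomial (Fin (n + 1)) ℤ)))

/-- no root in the field of rational functions -/
def NoRoot {n : ℕ} (P : (MvPolynomial (Fin (n + 1)) ℤ)[X]) : Prop :=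
  ∀ r : FractionRing (MvPolynomial (Fin (n + 1)) ℤ), (toK P).eval r ≠ 0

/-- nonzero constants and irreducible polynomials of degree at least two -/
def Kind {n : ℕ} (P : (MvPolynomial (Fin (n + 1)) ℤ)[X]) : Prop :=
  (∃ G : MvPolynomial (Fin (n + 1)) ℤ, G ≠ 0 ∧ P = C G) ∨
    (2 ≤ P.natDegree ∧ Irreducible (toK P))

/-- many primes obstruct `P` -/
def Base {n : ℕ} (P : (MvPolynomial (Fin (n + 1)) ℤ)[X]) : Prop :=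
  Dv {p : ℕ | p.Prime ∧ ∃ a : Fin (n + 1) → ℤ, (∃ i, ¬ (p : ℤ) ∣ a i) ∧ Obs P p a}

/-- the covers of complexity at most `m` -/
def Cov (n m : ℕ) : Set (MvPolynomial (Fin (n + 1)) ℤ)[X] :=
  {P | P.natDegree ≤ m ∧ (∃ D, D ≤ m ∧ ∀ k, (P.coeff k).IsHomogeneous D) ∧
    (∀ k u, |(P.coeff k).coeff u| ≤ (m : ℤ)) ∧ NoRoot P}

/-- weak approximation to precision `1 / m` -/
def WA {n : ℕ} (m : ℕ) (f : MvPolynomial (Fin (n + 1)) ℤ) : Prop :=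
  ∀ (z : ∀ (p : ℕ) [Fact p.Prime], Fin (n + 1) → ℚ_[p]) (y : Fin (n + 1) → ℝ),
    (∀ (p : ℕ) [Fact p.Prime], z p ≠ 0 ∧ MvPolynomial.aeval (z p) f = 0) → y ≠ 0 →
    MvPolynomial.aeval y f = 0 →
    ∃ x : Fin (n + 1) → ℚ, x ≠ 0 ∧ MvPolynomial.aeval x f = 0 ∧
      (∀ (p : ℕ) [Fact p.Prime], p ≤ m → ∃ c : ℚ_[p], c ≠ 0 ∧
        ∀ i, ‖z p i - c * (x i : ℚ_[p])‖ ≤ ‖z p‖ / m) ∧
      ∃ c : ℝ, c ≠ 0 ∧ ∀ i, |y i - c * (x i : ℝ)| ≤ ‖y‖ / m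

/-- weak approximation to precision `1 / m` by points `x` such that `P(x, w)` has no rational
root `w` -/
def WAP {n : ℕ} (m : ℕ) (f : MvPolynomial (Fin (n + 1)) ℤ)
    (P : (MvPolynomial (Fin (n + 1)) ℤ)[X]) : Prop :=
  ∀ (z : ∀ (p : ℕ) [Fact p.Prime], Fin (n + 1) → ℚ_[p]) (y : Fin (n + 1) → ℝ),
    (∀ (p : ℕ) [Fact p.Prime], z p ≠ 0 ∧ MvPolynomial.aeval (z p) f = 0) → y ≠ 0 →
    MvPolynomial.aeval y f = 0 →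
    ∃ x : Fin (n + 1) → ℚ, x ≠ 0 ∧ MvPolynomial.aeval x f = 0 ∧
      (∀ (p : ℕ) [Fact p.Prime], p ≤ m → ∃ c : ℚ_[p], c ≠ 0 ∧
        ∀ i, ‖z p i - c * (x i : ℚ_[p])‖ ≤ ‖z p‖ / m) ∧
      (∃ c : ℝ, c ≠ 0 ∧ ∀ i, |y i - c * (x i : ℝ)| ≤ ‖y‖ / m) ∧
      ∀ w : ℚ, (P.map (evQ x)).eval w ≠ 0

/-- `f` passes the tests at distinct primes between `m` and `M` for factors of `P` -/
def Tested {n : ℕ} (m M : ℕ) (f : MvPolynomial (Fin (n + 1)) ℤ)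
    (P : (MvPolynomial (Fin (n + 1)) ℤ)[X]) : Prop :=
  ∃ (k : ℕ) (Q : Fin k → (MvPolynomial (Fin (n + 1)) ℤ)[X]) (c : MvPolynomial (Fin (n + 1)) ℤ)
    (l : Fin k → ℕ) (a : Fin k → Fin (n + 1) → ℤ), C c * P = ∏ i, Q i ∧
    Function.Injective l ∧ ∀ i, (l i).Prime ∧ m < l i ∧ l i ≤ M ∧ Obs (Q i) (l i) (a i) ∧
      Test f (l i) (a i)

/-! ## Counting forms -/

/-- box count with residue conditions -/
def S_BOX : Prop := ∀ (T : Type) [Fintype T] (A : Finset ℕ), (∀ p ∈ A, p.Prime) →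
  ∀ (B : ∀ p : ℕ, Set (T → ZMod p)) (b : ℕ → ℝ),
    (∀ p ∈ A, ((B p).ncard : ℝ) ≤ b p * (p : ℝ) ^ Fintype.card T) →
    ∀ ε : ℝ, 0 < ε → ∃ H₀ : ℕ, ∀ H : ℕ, H₀ ≤ H →
      (({c : T → ℤ | (∀ t, |c t| ≤ (H : ℤ)) ∧ ∀ p ∈ A, (fun t => (c t : ZMod p)) ∈ B p} :
        Set (T → ℤ)).ncard : ℝ) ≤ (∏ p ∈ A, b p + ε) * (2 * (H : ℝ) + 1) ^ Fintype.card T

/-- the forms with no smooth zero at `a` modulo `p` -/
def S_ALG : Prop := ∀ (n d p : ℕ) [Fact p.Prime], 1 ≤ n → 1 ≤ d →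
  ∀ (T : Type) [Fintype T] (u : T ≃ {u : Fin (n + 1) →₀ ℕ // ∑ i, u i = d})
    (a : Fin (n + 1) → ZMod p), a ≠ 0 →
    (({c : T → ZMod p | ¬ (MvPolynomial.eval a (∑ t, MvPolynomial.monomial (u t : Fin (n + 1) →₀ ℕ)
        (c t)) = 0 ∧ ∃ j, MvPolynomial.eval a (MvPolynomial.pderiv j
          (∑ t, MvPolynomial.monomial (u t : Fin (n + 1) →₀ ℕ) (c t))) ≠ 0)} :
      Set (T → ZMod p)).ncard : ℝ) ≤ (1 - ((p : ℝ) - 1) / (p : ℝ) ^ 2) * (p : ℝ) ^ Fintype.card T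

def S_DEN1 : Prop := ∀ (n d : ℕ), 1 ≤ n → 1 ≤ d → ∀ (A : Finset ℕ), (∀ p ∈ A, p.Prime) →
  ∀ (a : ℕ → Fin (n + 1) → ℤ), (∀ p ∈ A, ∃ i, ¬ (p : ℤ) ∣ a p i) → ∀ ε : ℝ, 0 < ε →
    ∃ H₀ : ℕ, ∀ H : ℕ, H₀ ≤ H →
      (({f | f ∈ Fm n d H ∧ ∀ p ∈ A, ¬ Test f p (a p)} : Set _).ncard : ℝ) ≤
        (∏ p ∈ A, (1 - ((p : ℝ) - 1) / (p : ℝ) ^ 2) + ε) * ((Fm n d H).ncard : ℝ)

def S_PROD : Prop := ∀ (L : Set ℕ), (∀ p ∈ L, p.Prime) → Dv L → ∀ ε : ℝ, 0 < ε → ∀ m : ℕ,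
  ∃ A : Finset ℕ, (∀ p ∈ A, p ∈ L ∧ m < p) ∧
    ∏ p ∈ A, (1 - ((p : ℝ) - 1) / (p : ℝ) ^ 2) ≤ ε

/-- almost all forms pass a test at a prime of `L` above `m` -/
def S_DEN : Prop := ∀ (n d : ℕ), 1 ≤ n → 1 ≤ d → ∀ (L : Set ℕ), (∀ p ∈ L, p.Prime) → Dv L →
  ∀ (a : ℕ → Fin (n + 1) → ℤ), (∀ p ∈ L, ∃ i, ¬ (p : ℤ) ∣ a p i) → ∀ ε : ℝ, 0 < ε → ∀ m : ℕ,
    ∃ M H₀ : ℕ, m ≤ M ∧ ∀ H : ℕ, H₀ ≤ H →
      (({f | f ∈ Fm n d H ∧ ∀ p ∈ L, m < p → p ≤ M → ¬ Test f p (a p)} : Set _).ncard : ℝ) ≤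
        ε * ((Fm n d H).ncard : ℝ)

/-! ## Obstructions -/

/-- Hilbert irreducibility -/
def S_SPEC : Prop := ∀ (n : ℕ) (P : (MvPolynomial (Fin (n + 1)) ℤ)[X]), 2 ≤ P.natDegree →
  Irreducible (toK P) → ∃ a : Fin (n + 1) → ℚ, a 0 ≠ 0 ∧ evQ a P.leadingCoeff ≠ 0 ∧
    Irreducible (P.map (evQ a))

/-- primes modulo which an irreducible polynomial has no root -/
def S_NR : Prop := ∀ g : ℤ[X], 2 ≤ g.natDegree → Irreducible (g.map (Int.castRingHom ℚ)) →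
  Dv {p : ℕ | p.Prime ∧ ¬ (p : ℤ) ∣ g.leadingCoeff ∧ ∀ w : ℤ, ¬ (p : ℤ) ∣ g.eval w}

def S_BASE : Prop := ∀ (n : ℕ) (P : (MvPolynomial (Fin (n + 1)) ℤ)[X]), Kind P → Base P

/-- factorization -/
def S_FAC : Prop := ∀ (n : ℕ) (P : (MvPolynomial (Fin (n + 1)) ℤ)[X]), NoRoot P →
  ∃ (k : ℕ) (Q : Fin k → (MvPolynomial (Fin (n + 1)) ℤ)[X]) (c : MvPolynomial (Fin (n + 1)) ℤ),
    C c * P = ∏ i, Q i ∧ ∀ i, Kind (Q i)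

def S_FIN : Prop := ∀ n m : ℕ, (Cov n m).Finite

/-! ## Local points -/

def S_LOC : Prop := ∀ (n : ℕ) (P : (MvPolynomial (Fin (n + 1)) ℤ)[X]) (p : ℕ) [Fact p.Prime]
  (a : Fin (n + 1) → ℤ), Obs P p a → ∀ x : Fin (n + 1) → ℚ,
    (∀ i, ‖(x i : ℚ_[p]) - (a i : ℚ_[p])‖ < 1) → ∀ w : ℚ, (P.map (evQ x)).eval w ≠ 0

def S_HEN : Prop := ∀ (n d : ℕ) (f : MvPolynomial (Fin (n + 1)) ℤ) (p : ℕ) [Fact p.Prime]
  (a : Fin (n + 1) → ℤ), 2 ≤ d → f.IsHomogeneous d → Test f p a →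
    ∃ z : Fin (n + 1) → ℚ_[p], z ≠ 0 ∧ MvPolynomial.aeval z f = 0 ∧ ‖z‖ ≤ 1 ∧
      ∀ i, ‖z i - (a i : ℚ_[p])‖ < 1

def S_SCL : Prop := ∀ (A : Finset ℕ) (c : ∀ (p : ℕ) [Fact p.Prime], ℚ_[p]) (ε : ℝ), 0 < ε →
  ∃ c₀ : ℚ, c₀ ≠ 0 ∧ ∀ (p : ℕ) [Fact p.Prime], p ∈ A → ‖(c₀ : ℚ_[p]) - c p‖ ≤ ε

def S_FIX : Prop := ∀ (n d m M : ℕ) (f : MvPolynomial (Fin (n + 1)) ℤ)
  (P : (MvPolynomial (Fin (n + 1)) ℤ)[X]), 2 ≤ d → 1 ≤ m → m ≤ M → 2 ≤ M → f.IsHomogeneous d →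
    WA M f → Tested m M f P → WAP m f P

end Pool.Agent.Y214.HB
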