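import Pool.Agent.Y214.HB.Asm2
import Pool.Agent.Y297.HB.Box
import Pool.Agent.Y684.HB.Alg
import Pool.Agent.Y994.HB.Den
import Pool.Agent.Y96.HB.Prod
import Pool.Agent.Y155.HB.Spec
import Pool.Agent.Y932.HB.Base
import Pool.Agent.Y945.HB.Fac
import Pool.Agent.Y420.HB.LocFin
import Pool.Agent.Y420.HB.Scl
import Pool.Agent.Y67.HB.Fix
import Pool.Agent.Y70.HB.Hen
import Pool.Agent.Y972.HB.NR

/-!
# Project HB: all the parts together

Counting by helpers 297, 684, 994, 96; obstructions by helpers 155, 972, 932, 945; local points by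
helpers 420, 70, 67.
-/

set_option autoImplicit false

namespace Pool.Agent.Y214.HB

theorem den : S_DEN :=
  Pool.Agent.Y96.HB.t_DEN (Pool.Agent.Y994.HB.t_DEN1 Pool.Agent.Y297.HB.t_BOX
    Pool.Agent.Y684.HB.t_ALG) Pool.Agent.Y96.HB.t_PROD

theorem base : S_BASE :=
  Pool.Agent.Y932.HB.t_BASE Pool.Agent.Y155.HB.t_SPEC Pool.Agent.Y972.HB.t_NR

theorem fix : S_FIX :=
  Pool.Agent.Y67.HB.t_FIX Pool.Agent.Y420.HB.t_LOC Pool.Agent.Y70.HB.t_HEN
    Pool.Agent.Y420.HB.t_SCL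

end Pool.Agent.Y214.HB
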